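import Pool.Agent.Lib.MP_9b88e3_pr.Perc

/-!
# MP_9b88e3_pr: the directional longitudinal exponent depends on the direction (disproof of Q1)

The edge passage times are `1` with probability `99/100` and `101/100` with probability `1/100`.
All definitions are in `Pool.Agent.Lib.MP_9b88e3_pr.Defs`.
-/

set_option autoImplicit false

open MeasureTheory ProbabilityTheory Filter Topology
open scoped ENNReal NNReal

namespace Pool.Agent.Results.MP_9b88e3_pr.DirectionDependence

open FPPDir

/-- the law of the passage time of an edge -/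
noncomputable def F₀ : Measure ℝ :=
  ENNReal.ofReal (1 / 100) • Measure.dirac (101 / 100 : ℝ) + ENNReal.ofReal (99 / 100) • Measure.dirac (1 : ℝ)

/-- passage time of an edge, slow (`true`) or fast -/
noncomputable def ff (c : Bool) : ℝ := 1 + hh * (if c then 1 else 0)

lemma F₀_eq : bern.map ff = F₀ := by
  unfold bern F₀
  rw [Measure.map_add _ _ (measurable_of_finite _), Measure.map_smul, Measure.map_smul,
    Measure.map_dirac' (measurable_of_finite _), Measure.map_dirac' (measurable_of_finite _)]
  have e1 : ff true = 101 / 100 := by unfold ff hh; norm_num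
  have e2 : ff false = 1 := by unfold ff; simp
  have e3 : pb = 1 / 100 := rfl
  have e4 : 1 - pb = 99 / 100 := by rw [e3]; norm_num
  rw [e1, e2, e4, e3]

instance : IsProbabilityMeasure F₀ := by
  rw [← F₀_eq]
  exact Measure.isProbabilityMeasure_map (measurable_of_finite _).aemeasurable

lemma env_eq : env = fun (b : Edge → Bool) (e : Edge) => ff (b e) := rfl

lemma law_eq : law F₀ = (PP Edge).map env := by
  unfold law PP
  rw [env_eq, Measure.infinitePi_map_pi (μ := fun _ : Edge => bern) (f := fun _ : Edge => ff)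
    (fun _ => measurable_of_finite _)]
  rw [F₀_eq]

lemma env_embedding : MeasurableEmbedding env := by
  apply Measurable.measurableEmbedding
  · rw [env_eq]
    exact measurable_pi_iff.2 fun e => (measurable_of_finite ff).comp (measurable_pi_apply e)
  · intro b b' h
    funext e
    have h1 := congrFun h e
    rw [env_eq] at h1
    simp only [ff] at h1
    have h2 := hh_pos
    cases hb : b e <;> cases hb' : b' e <;> rw [hb, hb'] at h1 <;> simp at h1 ⊢ <;> linarith

lemma ae_law {p : (Edge → ℝ) → Prop} : (∀ᵐ τ ∂(law F₀), p τ) ↔ ∀ᵐ b ∂(PP Edge), p (env b) := by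
  rw [law_eq]
  exact env_embedding.ae_map_iff

/-- **Main theorem.** There is a law `F` of the edge passage times on `ℤ²` as in the problem
(`F(-∞,0) = 0`, `F{0} < p_c`, exponential moment) and two unit vectors `x`, `y` whose
directional longitudinal exponents differ: `χ₁(x) ≤ 0` and `χ₁(y) ≥ 1/20`. -/
theorem result :
    ∃ F : Measure ℝ, IsProbabilityMeasure F ∧ F (Set.Iio 0) = 0 ∧ F {0} < ENNReal.ofReal pc ∧
      (∃ γ : ℝ, 0 < γ ∧ Integrable (fun s => Real.exp (γ * s)) F) ∧
      ∃ (x y : ℂ) (μx μy : ℝ), ‖x‖ = 1 ∧ ‖y‖ = 1 ∧ 0 < μx ∧ 0 < μy ∧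
        ∀ r : ℂ → ℤ × ℤ, IsNearest r →
          IsTimeConstant F r x μx ∧ IsTimeConstant F r y μy ∧
          chi1 F r x μx ≤ 0 ∧ ((1 / 20 : ℝ) : EReal) ≤ chi1 F r y μy ∧
          chi1 F r x μx ≠ chi1 F r y μy := by
  obtain ⟨y, hy, hmin⟩ := exists_dir
  have hG1 : 1 ≤ G y := by
    have := Complex.norm_le_abs_re_add_abs_im y
    rw [hy] at this
    exact this.trans (le_G y)
  refine ⟨F₀, inferInstance, ?_, ?_, ⟨1, one_pos, ?_⟩, dg, y, Real.sqrt 2, G y, norm_dg, hy, by positivity,
    by linarith, fun r hr => ?_⟩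
  · unfold F₀
    simp
    norm_num
  · have h0 : F₀ {0} = 0 := by
      unfold F₀
      simp
    rw [h0]
    exact ENNReal.ofReal_pos.2 pc_pos
  · unfold F₀
    refine Integrable.add_measure ?_ ?_
    · exact (integrable_dirac (by simp)).smul_measure ENNReal.ofReal_ne_top
    · exact (integrable_dirac (by simp)).smul_measure ENNReal.ofReal_ne_top
  · have hx : chi1 F₀ r dg (Real.sqrt 2) ≤ 0 := by
      rw [← EReal.le_of_forall_lt_iff_le]
      intro κ hκ
      have hκ' : 0 < κ := by exact_mod_cast hκ
      apply sInf_le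
      exact ⟨κ, rfl, ae_law.2 (diag_good hr hκ')⟩
    have hyy : ((1 / 20 : ℝ) : EReal) ≤ chi1 F₀ r y (G y) := by
      apply le_sInf
      rintro _ ⟨κ, rfl, hκ⟩
      rw [EReal.coe_le_coe_iff]
      exact y_lower hy hmin hr (ae_law.1 hκ)
    refine ⟨ae_law.2 (diag_time hr), ae_law.2 (time_constant hr y), hx, hyy, ?_⟩
    have h1 : (0 : EReal) < ((1 / 20 : ℝ) : EReal) := by
      rw [← EReal.coe_zero, EReal.coe_lt_coe_iff]
      norm_num
    exact (lt_of_le_of_lt hx (lt_of_lt_of_le h1 hyy)).ne

end Pool.Agent.Results.MP_9b88e3_pr.DirectionDependence
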